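import Pool.Agent.H30.TetDefs

set_option autoImplicit false
open Pool.Agent.H30.TetDefs

namespace Pool.Agent.Results.MP_7a8221_co.FiveByEight

theorem result : ∃ m n : ℕ, 1 ≤ m ∧ 1 ≤ n ∧ Tileable m n ∧
    ¬ ((4 ∣ m ∧ Even n) ∨ (4 ∣ n ∧ Even m)) := by
  refine ⟨5, 8, by norm_num, by norm_num, ⟨{tile 0 (0, 4), tile 0 (2, 0), tile 0 (2, 6),
    tile 1 (1, 1), tile 1 (4, 3), tile 2 (3, 7), tile 3 (0, 2), tile 3 (0, 7), tile 3 (2, 3),
    tile 3 (3, 4)}, ?_, ?_, ?_⟩, by decide⟩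
  · intro t ht
    simp only [Finset.mem_insert, Finset.mem_singleton] at ht
    rcases ht with h | h | h | h | h | h | h | h | h | h <;> exact ⟨_, _, h⟩
  · decide +kernel
  · decide +kernel

end Pool.Agent.Results.MP_7a8221_co.FiveByEight
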